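import Mathlib
import Pool.Agent.Q22.CG.Stm

/-!
# S_FG, S_FIN and S_AUT for project CG (MP_216434_al)
-/

set_option linter.unusedSectionVars false

namespace Pool.Agent.Q175.CG22

open Pool.Agent.Q22.CG SemidirectProduct

section Basic

variable {P : Type} [Group P]

open Classical in
/-- the function with value `s` on `A` and `1` elsewhere, as a homomorphism in `s` -/
noncomputable def ind (A : Set P) : A5 →* (P → A5) where
  toFun s := fun x => if x ∈ A then s else 1
  map_one' := by ext x; simp
  map_mul' s t := by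
    funext x
    by_cases h : x ∈ A <;> simp [h]

theorem ind_in {A : Set P} {x : P} (h : x ∈ A) (s : A5) : ind A s x = s := by
  simp [ind, h]

theorem ind_out {A : Set P} {x : P} (h : x ∉ A) (s : A5) : ind A s x = 1 := by
  simp [ind, h]

theorem ind_mem {U A : Set P} (hA : A ∈ Alg U) (s : A5) : ind A s ∈ Bas U := by
  classical
  intro t
  by_cases h1 : s = t
  · by_cases h2 : (1 : A5) = t
    · have : {x | ind A s x = t} = Set.univ := by
        ext x
        by_cases hx : x ∈ A
        · simp [ind_in hx, h1]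
        · simp [ind_out hx, h2]
      rw [this]; exact alg_univ U
    · have : {x | ind A s x = t} = A := by
        ext x
        by_cases hx : x ∈ A
        · simp [ind_in hx, h1, hx]
        · simp [ind_out hx, h2, hx]
      rw [this]; exact hA
  · by_cases h2 : (1 : A5) = t
    · have : {x | ind A s x = t} = Aᶜ := by
        ext x
        by_cases hx : x ∈ A
        · simp [ind_in hx, h1, hx]
        · simp [ind_out hx, h2, hx]
      rw [this]; exact alg_compl hA
    · have : {x | ind A s x = t} = ∅ := by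
        ext x
        by_cases hx : x ∈ A
        · simp [ind_in hx, h1]
        · simp [ind_out hx, h2]
      rw [this]; exact alg_finite Set.finite_empty

theorem ind_inter (A B : Set P) (s t : A5) :
    ind A s * ind B t * (ind A s)⁻¹ * (ind B t)⁻¹ = ind (A ∩ B) (s * t * s⁻¹ * t⁻¹) := by
  funext x
  simp only [Pi.mul_apply, Pi.inv_apply]
  by_cases ha : x ∈ A <;> by_cases hb : x ∈ B
  · rw [ind_in ha, ind_in hb, ind_in (Set.mem_inter ha hb)]
  · rw [ind_in ha, ind_out hb, ind_out (fun h => hb h.2)]; simp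
  · rw [ind_out ha, ind_in hb, ind_out (fun h => ha h.1)]; simp
  · rw [ind_out ha, ind_out hb, ind_out (fun h => ha h.1)]; simp

/-- a subgroup of `A5` containing all commutators is everything -/
theorem a5_top (H : Subgroup A5) (h : ∀ s t : A5, s * t * s⁻¹ * t⁻¹ ∈ H) : H = ⊤ := by
  have hc : commutator A5 = ⊤ := commutator_alternatingGroup_eq_top (by simp)
  rw [eq_top_iff, ← hc, commutator_def, Subgroup.commutator_le]
  intro a _ b _
  exact h a b

/-- the set of sets `A` such that all `ind A s` are in `K` -/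
def CC (K : Subgroup (P → A5)) : Set (Set P) := {A | ∀ s, ind A s ∈ K}

theorem cc_inter {K : Subgroup (P → A5)} {A B : Set P} (hA : A ∈ CC K) (hB : B ∈ CC K) :
    A ∩ B ∈ CC K := by
  have := a5_top (K.comap (ind (A ∩ B))) (by
    intro s t
    rw [Subgroup.mem_comap, ← ind_inter]
    exact K.mul_mem (K.mul_mem (K.mul_mem (hA s) (hB t)) (K.inv_mem (hA s))) (K.inv_mem (hB t)))
  intro s
  have h : s ∈ K.comap (ind (A ∩ B)) := by rw [this]; trivial
  exact h

theorem cc_union_disj {K : Subgroup (P → A5)} {A B : Set P} (hA : A ∈ CC K) (hB : B ∈ CC K)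
    (h : ∀ x, x ∈ A → x ∉ B) : A ∪ B ∈ CC K := by
  intro s
  have : ind (A ∪ B) s = ind A s * ind B s := by
    funext x
    simp only [Pi.mul_apply]
    by_cases ha : x ∈ A
    · have h1 : x ∈ A ∪ B := Or.inl ha
      rw [ind_in ha, ind_out (h x ha), ind_in h1, mul_one]
    · by_cases hb : x ∈ B
      · have h1 : x ∈ A ∪ B := Or.inr hb
        rw [ind_out ha, ind_in hb, ind_in h1, one_mul]
      · have h1 : x ∉ A ∪ B := by rintro (h | h) <;> contradiction
        rw [ind_out ha, ind_out hb, ind_out h1, one_mul]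
  rw [this]
  exact K.mul_mem (hA s) (hB s)

theorem cc_compl {K : Subgroup (P → A5)} {A : Set P} (hu : Set.univ ∈ CC K) (hA : A ∈ CC K) :
    Aᶜ ∈ CC K := by
  intro s
  have : ind Aᶜ s = ind Set.univ s * (ind A s)⁻¹ := by
    funext x
    simp only [Pi.mul_apply, Pi.inv_apply]
    by_cases ha : x ∈ A
    · rw [ind_in ha, ind_out (by simpa using ha), ind_in (Set.mem_univ x), mul_inv_cancel]
    · rw [ind_out ha, ind_in (by simpa using ha), ind_in (Set.mem_univ x)]; simp
  rw [this]
  exact K.mul_mem (hu s) (K.inv_mem (hA s))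

theorem cc_empty {K : Subgroup (P → A5)} : (∅ : Set P) ∈ CC K := by
  intro s
  have : ind (∅ : Set P) s = 1 := by
    funext x
    rw [ind_out (by simp)]; rfl
  rw [this]; exact K.one_mem

theorem cc_union {K : Subgroup (P → A5)} {A B : Set P} (hu : Set.univ ∈ CC K)
    (hA : A ∈ CC K) (hB : B ∈ CC K) : A ∪ B ∈ CC K := by
  have := cc_compl hu (cc_inter (cc_compl hu hA) (cc_compl hu hB))
  rwa [Set.compl_inter, compl_compl, compl_compl] at this

theorem cc_biUnion {ι : Type*} {K : Subgroup (P → A5)} (hu : Set.univ ∈ CC K) (s : Finset ι)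
    (A : ι → Set P) (h : ∀ i ∈ s, A i ∈ CC K) : (⋃ i ∈ s, A i) ∈ CC K := by
  classical
  induction s using Finset.induction_on with
  | empty => simpa using cc_empty
  | insert a s ha ih =>
    rw [Finset.set_biUnion_insert]
    exact cc_union hu (h a (Finset.mem_insert_self a s))
      (ih fun i hi => h i (Finset.mem_insert_of_mem hi))

theorem cc_biInter {ι : Type*} {K : Subgroup (P → A5)} (hu : Set.univ ∈ CC K) (s : Finset ι)
    (A : ι → Set P) (h : ∀ i ∈ s, A i ∈ CC K) : (⋂ i ∈ s, A i) ∈ CC K := by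
  classical
  induction s using Finset.induction_on with
  | empty => simpa using hu
  | insert a s ha ih =>
    rw [Finset.set_biInter_insert]
    exact cc_inter (h a (Finset.mem_insert_self a s))
      (ih fun i hi => h i (Finset.mem_insert_of_mem hi))

/-- if `CC K` contains the singletons, the whole set and the translates of `U`, then it contains
`Alg U` -/
theorem cc_alg {K : Subgroup (P → A5)} {U : Set P} (hu : Set.univ ∈ CC K)
    (h1 : ∀ x : P, {x} ∈ CC K) (hU : ∀ l : P, {x | l⁻¹ * x ∈ U} ∈ CC K) {A : Set P}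
    (hA : A ∈ Alg U) : A ∈ CC K := by
  classical
  have hfin : ∀ F : Set P, F.Finite → F ∈ CC K := by
    intro F hF
    have := cc_biUnion hu hF.toFinset (fun x => ({x} : Set P)) (fun x _ => h1 x)
    have e : (⋃ i ∈ hF.toFinset, ({i} : Set P)) = F := by
      ext x; simp
    rwa [e] at this
  obtain ⟨L, E, h⟩ := hA
  have hB : {x | pat U L x ∈ E} ∈ CC K := by
    have h2 : ∀ T : Finset P, T ∈ L.powerset → {x | pat U L x = T} ∈ CC K := by
      intro T hT
      rw [Finset.mem_powerset] at hT
      have e : {x | pat U L x = T} =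
          ⋂ l ∈ L, (if l ∈ T then {x | l⁻¹ * x ∈ U} else {x | l⁻¹ * x ∈ U}ᶜ) := by
        ext x
        simp only [Set.mem_ofPred_eq, Set.mem_iInter]
        constructor
        · intro hx l hl
          by_cases hlT : l ∈ T
          · rw [if_pos hlT]
            rw [← hx, mem_pat] at hlT
            exact hlT.2
          · rw [if_neg hlT]
            rw [← hx, mem_pat] at hlT
            intro hc
            exact hlT ⟨hl, hc⟩
        · intro hx
          ext l
          rw [mem_pat]
          constructor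
          · rintro ⟨hl, hlx⟩
            by_contra hlT
            have := hx l hl
            rw [if_neg hlT] at this
            exact this hlx
          · intro hlT
            have := hx l (hT hlT)
            rw [if_pos hlT] at this
            exact ⟨hT hlT, this⟩
      rw [e]
      apply cc_biInter hu
      intro l _
      split_ifs
      · exact hU l
      · exact cc_compl hu (hU l)
    have e : {x | pat U L x ∈ E} = ⋃ T ∈ L.powerset.filter (· ∈ E), {x | pat U L x = T} := by
      ext x
      simp only [Set.mem_ofPred_eq, Set.mem_iUnion, Finset.mem_filter, Finset.mem_powerset,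
        exists_prop]
      constructor
      · intro hx
        refine ⟨_, ⟨?_, hx⟩, rfl⟩
        intro l hl
        exact ((mem_pat U L x l).1 hl).1
      · rintro ⟨T, ⟨_, hT⟩, rfl⟩
        exact hT
    rw [e]
    apply cc_biUnion hu
    intro T hT
    exact h2 T (Finset.mem_filter.1 hT).1
  set D := {x | ¬ (x ∈ A ↔ pat U L x ∈ E)} with hD
  have e : A = ({x | pat U L x ∈ E} ∩ Dᶜ) ∪ (A ∩ D) := by
    ext x
    simp only [hD, Set.mem_union, Set.mem_inter_iff, Set.mem_ofPred_eq, Set.mem_compl_iff]
    tauto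
  rw [e]
  exact cc_union hu (cc_inter hB (cc_compl hu (hfin D h))) (hfin _ (h.subset Set.inter_subset_right))

/-- if `CC K` contains `Alg U` then `K` contains `Bas U` -/
theorem bas_le {K : Subgroup (P → A5)} {U : Set P} (h : ∀ A ∈ Alg U, A ∈ CC K) : Bas U ≤ K := by
  classical
  intro f hf
  have key : ∀ T : Finset A5, (fun x => if f x ∈ T then f x else 1) ∈ K := by
    intro T
    induction T using Finset.induction_on with
    | empty =>
      have : (fun x => if f x ∈ (∅ : Finset A5) then f x else 1) = 1 := by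
        funext x; simp
      rw [this]; exact K.one_mem
    | insert s T hs ih =>
      have : (fun x => if f x ∈ insert s T then f x else 1) =
          ind {x | f x = s} s * (fun x => if f x ∈ T then f x else 1) := by
        funext x
        simp only [Pi.mul_apply]
        by_cases hx : f x = s
        · rw [ind_in (by exact hx)]
          simp [hx, hs]
        · rw [ind_out (by exact hx)]
          simp [hx]
      rw [this]
      exact K.mul_mem (h _ (hf s) s) ih
  have := key Finset.univ
  simpa using this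

/-- the subgroup of functions `f` in `Bas U` with `inl f ∈ H` -/
def KK {U : Set P} (H : Subgroup (Gam U)) : Subgroup (P → A5) :=
  (H.comap (inl : Bas U →* Gam U)).map (Bas U).subtype

theorem mem_KK {U : Set P} {H : Subgroup (Gam U)} {f : P → A5} :
    f ∈ KK H ↔ ∃ hf : f ∈ Bas U, (inl ⟨f, hf⟩ : Gam U) ∈ H := by
  unfold KK
  rw [Subgroup.mem_map]
  constructor
  · rintro ⟨g, hg, rfl⟩
    exact ⟨g.2, hg⟩
  · rintro ⟨hf, h⟩
    exact ⟨⟨f, hf⟩, h, rfl⟩

theorem KK_shift {U : Set P} {H : Subgroup (Gam U)} {p : P} (hp : ∀ g ∈ H,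
    (inr p : Gam U) * g * (inr p)⁻¹ ∈ H) {f : P → A5} (hf : f ∈ KK H) :
    (fun x => f (p⁻¹ * x)) ∈ KK H := by
  rw [mem_KK] at hf ⊢
  obtain ⟨h1, h2⟩ := hf
  refine ⟨shift_mem p h1, ?_⟩
  have := hp _ h2
  rw [← map_inv, ← inl_aut] at this
  exact this

theorem CC_shift {U : Set P} {H : Subgroup (Gam U)} {p : P} (hp : ∀ g ∈ H,
    (inr p : Gam U) * g * (inr p)⁻¹ ∈ H) {A : Set P} (hA : A ∈ CC (KK H)) :
    {x | p⁻¹ * x ∈ A} ∈ CC (KK H) := by
  intro s
  have := KK_shift hp (hA s)
  have e : ind {x | p⁻¹ * x ∈ A} s = fun x => ind A s (p⁻¹ * x) := by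
    funext x
    by_cases h : p⁻¹ * x ∈ A
    · rw [ind_in h, ind_in (by exact h)]
    · rw [ind_out h, ind_out (by exact h)]
  rw [e]
  exact this

theorem univ_of {U : Set P} {k : P} (hk : ∀ x, k * x ∈ U ↔ x ∉ U) :
    U ∪ {x | k⁻¹ * x ∈ U} = Set.univ ∧ ∀ x, x ∈ U → x ∉ {x | k⁻¹ * x ∈ U} := by
  have h : ∀ x, x ∈ U ↔ k⁻¹ * x ∉ U := by
    intro x
    have := hk (k⁻¹ * x)
    rwa [mul_inv_cancel_left] at this
  constructor
  · ext x
    simp only [Set.mem_union, Set.mem_ofPred_eq, Set.mem_univ, iff_true]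
    have := h x
    tauto
  · intro x hx
    exact (h x).1 hx

end Basic

theorem fg : S_FG := by
  classical
  intro P _ hP U k hk
  obtain ⟨S, hS, hSf⟩ := (Group.fg_iff (G := P)).1 hP
  have h1A : ({1} : Set P) ∈ Alg U := alg_finite (Set.finite_singleton 1)
  have hUA : U ∈ Alg U := by
    refine alg_of_eq {1} {({1} : Finset P)} ?_
    intro x
    simp only [Set.mem_singleton_iff]
    constructor
    · intro hx
      ext l
      rw [mem_pat]
      constructor
      · exact fun h => h.1
      · intro h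
        refine ⟨h, ?_⟩
        rw [Finset.mem_singleton] at h
        subst h
        simpa using hx
    · intro h
      have : (1 : P) ∈ pat U {1} x := by rw [h]; simp
      rw [mem_pat] at this
      simpa using this.2
  rw [Group.fg_iff]
  refine ⟨(inr '' S) ∪ (Set.range (fun s : A5 => (inl ⟨ind {1} s, ind_mem h1A s⟩ : Gam U)) ∪
    Set.range (fun s : A5 => (inl ⟨ind U s, ind_mem hUA s⟩ : Gam U))), ?_,
    (hSf.image _).union ((Set.finite_range _).union (Set.finite_range _))⟩
  set H := Subgroup.closure ((inr '' S) ∪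
    (Set.range (fun s : A5 => (inl ⟨ind {1} s, ind_mem h1A s⟩ : Gam U)) ∪
    Set.range (fun s : A5 => (inl ⟨ind U s, ind_mem hUA s⟩ : Gam U)))) with hH
  have hr : ∀ p : P, (inr p : Gam U) ∈ H := by
    intro p
    have h2 : Subgroup.closure S ≤ H.comap (inr : P →* Gam U) := by
      rw [Subgroup.closure_le]
      intro s hs
      exact Subgroup.subset_closure (Or.inl ⟨s, hs, rfl⟩)
    have : p ∈ Subgroup.closure S := by rw [hS]; trivial
    exact h2 this
  have hconj : ∀ p : P, ∀ g ∈ H, (inr p : Gam U) * g * (inr p)⁻¹ ∈ H := fun p g hg =>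
    H.mul_mem (H.mul_mem (hr p) hg) (H.inv_mem (hr p))
  have c1 : ({1} : Set P) ∈ CC (KK H) := by
    intro s
    rw [mem_KK]
    exact ⟨ind_mem h1A s, Subgroup.subset_closure (Or.inr (Or.inl ⟨s, rfl⟩))⟩
  have cU : U ∈ CC (KK H) := by
    intro s
    rw [mem_KK]
    exact ⟨ind_mem hUA s, Subgroup.subset_closure (Or.inr (Or.inr ⟨s, rfl⟩))⟩
  have cs : ∀ x : P, {x} ∈ CC (KK H) := by
    intro x
    have := CC_shift (hconj x) c1
    have e : {y | x⁻¹ * y ∈ ({1} : Set P)} = {x} := by
      ext y
      simp only [Set.mem_singleton_iff, Set.mem_ofPred_eq]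
      rw [inv_mul_eq_one]
      exact eq_comm
    rwa [e] at this
  have cu : Set.univ ∈ CC (KK H) := by
    obtain ⟨e1, e2⟩ := univ_of hk
    rw [← e1]
    exact cc_union_disj cU (CC_shift (hconj k) cU) e2
  have hle := bas_le (U := U) (K := KK H) (fun A hA => cc_alg cu cs (fun l => CC_shift (hconj l) cU) hA)
  rw [eq_top_iff]
  intro γ _
  rw [← inl_left_mul_inr_right γ]
  refine H.mul_mem ?_ (hr _)
  obtain ⟨_, h⟩ := mem_KK.1 (hle γ.left.2)
  exact h

theorem fin : S_FIN := by
  classical
  intro G K _ _ hK U k hk N hN hi γ hγ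
  have hUA : U ∈ Alg U := by
    refine alg_of_eq {1} {({1} : Finset (G × K))} ?_
    intro x
    simp only [Set.mem_singleton_iff]
    constructor
    · intro hx
      ext l
      rw [mem_pat]
      constructor
      · exact fun h => h.1
      · intro h
        refine ⟨h, ?_⟩
        rw [Finset.mem_singleton] at h
        subst h
        simpa using hx
    · intro h
      have : (1 : G × K) ∈ pat U {1} x := by rw [h]; simp
      rw [mem_pat] at this
      simpa using this.2
  have hr : ∀ κ : K, (inr ((1 : G), κ) : Gam U) ∈ N := by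
    have h1 := hK (N.comap ((inr : (G × K) →* Gam U).comp (MonoidHom.inr G K))) (by
      rw [Subgroup.index_comap]
      exact ne_zero_of_dvd_ne_zero hi (Subgroup.relIndex_dvd_index_of_normal N _))
    intro κ
    have : κ ∈ N.comap ((inr : (G × K) →* Gam U).comp (MonoidHom.inr G K)) := by
      rw [h1]; trivial
    exact this
  have hconj : ∀ p : G × K, ∀ g ∈ N, (inr p : Gam U) * g * (inr p)⁻¹ ∈ N := fun p g hg =>
    hN.conj_mem g hg _
  -- conjugation by elements of `Bas U`
  have hnorm : ∀ f ∈ Bas U, ∀ g ∈ KK N, f * g * f⁻¹ ∈ KK N := by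
    intro f hf g hg
    rw [mem_KK] at hg ⊢
    obtain ⟨h1, h2⟩ := hg
    refine ⟨(Bas U).mul_mem ((Bas U).mul_mem hf h1) ((Bas U).inv_mem hf), ?_⟩
    have := hN.conj_mem _ h2 (inl ⟨f, hf⟩)
    rw [← map_inv, ← map_mul, ← map_mul] at this
    exact this
  have hcomm : ∀ g ∈ KK N, ∀ f ∈ Bas U, g * f * g⁻¹ * f⁻¹ ∈ KK N := by
    intro g hg f hf
    have := (KK N).mul_mem hg (hnorm f hf _ ((KK N).inv_mem hg))
    simpa [mul_assoc] using this
  obtain ⟨e1, e2⟩ := univ_of hk
  set U' : Set (G × K) := {x | ((1 : G), k)⁻¹ * x ∈ U} with hU'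
  have hd : ∀ s : A5, ind U' s * (ind U s)⁻¹ ∈ KK N := by
    intro s
    have hz := hr k
    have h3 := N.mul_mem hz (hN.conj_mem _ (N.inv_mem hz) (inl ⟨ind U s, ind_mem hUA s⟩))
    rw [mem_KK]
    refine ⟨(Bas U).mul_mem (ind_mem (alg_translate _ hUA) s) ((Bas U).inv_mem (ind_mem hUA s)), ?_⟩
    have e4 : (inr ((1 : G), k) : Gam U) * (inl ⟨ind U s, ind_mem hUA s⟩ *
        (inr ((1 : G), k))⁻¹ * (inl ⟨ind U s, ind_mem hUA s⟩)⁻¹) =
        inl ⟨ind U' s * (ind U s)⁻¹,
          (Bas U).mul_mem (ind_mem (alg_translate _ hUA) s) ((Bas U).inv_mem (ind_mem hUA s))⟩ := by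
      rw [← mul_assoc, ← mul_assoc, ← map_inv inr, ← inl_aut, ← map_inv, ← map_mul]
      rfl
    rw [← e4]
    exact h3
  have cU : U ∈ CC (KK N) := by
    have := a5_top ((KK N).comap (ind U)) (by
      intro s t
      rw [Subgroup.mem_comap]
      have h4 := hcomm _ (hd s⁻¹) (ind U t) (ind_mem hUA t)
      have e : ind U' s⁻¹ * (ind U s⁻¹)⁻¹ * ind U t * (ind U' s⁻¹ * (ind U s⁻¹)⁻¹)⁻¹ *
          (ind U t)⁻¹ = ind U (s * t * s⁻¹ * t⁻¹) := by
        funext x
        simp only [Pi.mul_apply, Pi.inv_apply]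
        by_cases hx : x ∈ U
        · rw [ind_in hx, ind_in hx, ind_in hx, ind_out (e2 x hx)]
          simp
        · rw [ind_out hx, ind_out hx, ind_out hx]
          simp
      rw [e] at h4
      exact h4)
    intro s
    have h : s ∈ (KK N).comap (ind U) := by rw [this]; trivial
    exact h
  have cu : Set.univ ∈ CC (KK N) := by
    rw [← e1]
    exact cc_union_disj cU (CC_shift (hconj _) cU) e2
  have hle : Bas U ≤ KK N := by
    apply bas_le
    intro A hA
    have := a5_top ((KK N).comap (ind A)) (by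
      intro s t
      rw [Subgroup.mem_comap]
      have h4 := hcomm _ (cu s) (ind A t) (ind_mem hA t)
      rw [ind_inter, Set.univ_inter] at h4
      exact h4)
    intro s
    have h : s ∈ (KK N).comap (ind A) := by rw [this]; trivial
    exact h
  rw [← inl_left_mul_inr_right γ]
  refine N.mul_mem ?_ ?_
  · obtain ⟨_, h⟩ := mem_KK.1 (hle γ.left.2)
    exact h
  · have : γ.right = ((1 : G), γ.right.2) := Prod.ext hγ rfl
    rw [this]
    exact hr _

theorem aut : S_AUT := by
  classical
  intro P _ U α hα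
  have hα' : ∀ x, α.symm x ∈ U ↔ x ∈ U := by
    intro x
    rw [← hα (α.symm x), MulEquiv.apply_symm_apply]
  -- `Alg U` is invariant
  have hinv : ∀ (β : P ≃* P), (∀ x, β x ∈ U ↔ x ∈ U) → ∀ A ∈ Alg U, {x | β.symm x ∈ A} ∈ Alg U := by
    intro β hβ A hA
    obtain ⟨L, E, h⟩ := hA
    refine ⟨L.image β, {S | S.image β.symm ∈ E},
      (h.preimage (f := fun x => β.symm x) (by intro a _ b _ hab; simpa using hab)).subset ?_⟩
    intro x hx
    have e : (pat U (L.image β) x).image β.symm = pat U L (β.symm x) := by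
      ext l
      simp only [Finset.mem_image, mem_pat]
      constructor
      · rintro ⟨m, ⟨⟨l', hl', rfl⟩, hm⟩, rfl⟩
        refine ⟨by simpa using hl', ?_⟩
        rw [← hβ]
        simpa using hm
      · rintro ⟨hl, hm⟩
        refine ⟨β l, ⟨⟨l, hl, rfl⟩, ?_⟩, by simp⟩
        rw [← hβ] at hm
        simpa using hm
    have hx' : ¬ (β.symm x ∈ A ↔ (pat U (L.image β) x).image β.symm ∈ E) := hx
    rw [e] at hx'
    exact hx'
  have hf : ∀ f ∈ Bas U, (fun x => f (α.symm x)) ∈ Bas U := by
    intro f hf s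
    exact hinv α hα _ (hf s)
  have hf' : ∀ f ∈ Bas U, (fun x => f (α x)) ∈ Bas U := by
    intro f hf s
    have := hinv α.symm hα' _ (hf s)
    simpa using this
  let fn : Bas U ≃* Bas U :=
    { toFun := fun f => ⟨fun x => f.1 (α.symm x), hf f.1 f.2⟩
      invFun := fun f => ⟨fun x => f.1 (α x), hf' f.1 f.2⟩
      left_inv := by intro f; apply Subtype.ext; funext x; simp
      right_inv := by intro f; apply Subtype.ext; funext x; simp
      map_mul' := by intro f g; rfl }
  refine ⟨SemidirectProduct.congr fn α ?_, fun γ => rfl⟩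
  intro p
  apply MulEquiv.ext
  intro f
  apply Subtype.ext
  funext x
  show f.1 (p⁻¹ * α.symm x) = f.1 (α.symm ((α p)⁻¹ * x))
  simp

end Pool.Agent.Q175.CG22

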