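import Mathlib
import Pool.Agent.Q22.CG.Stm

/-!
# S_PROP for project CG (MP_216434_al)
-/

namespace Pool.Agent.Q175.CG22

open Pool.Agent.Q22.CG

theorem card_Ix (i : ℕ) : Fintype.card (Ix i) = 3 * 3 ^ i := by
  simp [Ix, Fintype.card_prod, Fintype.card_fin]

theorem cop {q : ℕ} (h : q % 3 = 2) (i : ℕ) : Nat.Coprime (3 * 3 ^ i) (q - 1) := by
  have h1 : Nat.Coprime 3 (q - 1) := by
    rw [Nat.Prime.coprime_iff_not_dvd Nat.prime_three]
    omega
  exact Nat.Coprime.mul_left h1 (Nat.Coprime.pow_left i h1)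

section

variable {p : ℕ → ℕ} [∀ i, Fact (p i).Prime]

theorem cl (hcl : S_CL) (h2 : S_Q2) (hg2 : S_G2) (hg3 : S_G3) (hg4 : S_G4) (hp : GoodPrimes p)
    (N : Subgroup (GG p)) (hN : N.Normal) (hi : N.index ≠ 0) :
    ∃ L : ∀ i, Subgroup (QG (Ix i) (ZMod (p i))), (∀ i, (L i).Normal) ∧ {i | L i ≠ ⊤}.Finite ∧
        (∀ i, (L i).index ≤ N.index) ∧
        ∀ g : GG p, g ∈ N ↔ ∀ i, (⟨(g : Amb p) i, hg3 p g g.2 i⟩ : QG (Ix i) (ZMod (p i))) ∈ L i :=
  hcl (fun i => (Matrix (Ix i ⊕ Fin 2) (Ix i ⊕ Fin 2) (ZMod (p i)))ˣ)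
    (fun i => QG (Ix i) (ZMod (p i))) (GG p)
    (fun i L hL g hg => h2 (Ix i) (p i) (by
        rw [card_Ix]
        have := Nat.one_le_pow i 3 (by norm_num)
        omega) (by rw [card_Ix]; exact cop (hp.mod3 i) i) L hL g hg)
    (fun i g hg => hg2 p i g hg)
    (fun g hg i => hg3 p g hg i)
    (fun N hN hi h => hg4 p N hN hi h) N hN hi

/-- transvection as a unit -/
def tu {n F : Type} [Fintype n] [DecidableEq n] [Field F] (i j : n) (h : i ≠ j) (c : F) :
    (Matrix n n F)ˣ where
  val := Matrix.transvection i j c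
  inv := Matrix.transvection i j (-c)
  val_inv := by rw [Matrix.transvection_mul_transvection_same i j h, add_neg_cancel, Matrix.transvection_zero]
  inv_val := by rw [Matrix.transvection_mul_transvection_same i j h, neg_add_cancel, Matrix.transvection_zero]

theorem mem_of_top {L : ∀ i, Subgroup (QG (Ix i) (ZMod (p i)))} (hg3 : S_G3) {i : ℕ}
    (hi : L i = ⊤) {g : (Matrix (Ix i ⊕ Fin 2) (Ix i ⊕ Fin 2) (ZMod (p i)))ˣ}
    (hm : (Pi.mulSingle i g : Amb p) ∈ GG p) (j : ℕ) :
    (⟨(Pi.mulSingle i g : Amb p) j, hg3 p _ hm j⟩ : QG (Ix j) (ZMod (p j))) ∈ L j := by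
  by_cases h : j = i
  · subst h
    rw [hi]; trivial
  · have : (⟨(Pi.mulSingle i g : Amb p) j, hg3 p _ hm j⟩ : QG (Ix j) (ZMod (p j))) = 1 := by
      apply Subtype.ext
      exact Pi.mulSingle_eq_of_ne
        (M := fun i => (Matrix (Ix i ⊕ Fin 2) (Ix i ⊕ Fin 2) (ZMod (p i)))ˣ) h g
    rw [this]
    exact (L j).one_mem

end

theorem prop (hcl : S_CL) (h2 : S_Q2) (h3 : S_Q3) (hg1 : S_G1) (hg2 : S_G2) (hg3 : S_G3)
    (hg4 : S_G4) (hg6 : S_G6) : S_PROP := by
  classical
  intro p _ hp a α ha hα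
  refine ⟨?_, ?_, ?_, ?_, ?_, ?_⟩
  · intro H hH
    by_contra hi
    have : H.FiniteIndex := ⟨hi⟩
    obtain ⟨L, hLn, hLf, -, hL⟩ := cl hcl h2 hg2 hg3 hg4 hp H.normalCore inferInstance
      Subgroup.FiniteIndex.index_ne_zero
    obtain ⟨i, hiL⟩ := hLf.infinite_compl.nonempty
    have hiL' : L i = ⊤ := by simpa using hiL
    let u : Ix i := (0, ⟨0, by positivity⟩)
    have huw : (Sum.inl u : Ix i ⊕ Fin 2) ≠ Sum.inr 0 := by simp
    let g : (Matrix (Ix i ⊕ Fin 2) (Ix i ⊕ Fin 2) (ZMod (p i)))ˣ := tu (Sum.inl u) (Sum.inr 0) huw 1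
    have hgQ : g ∈ QG (Ix i) (ZMod (p i)) :=
      Subgroup.subset_closure ⟨u, Sum.inr 0, 1, huw, rfl⟩
    have hgG := hg2 p i g hgQ
    have hgN : (⟨Pi.mulSingle i g, hgG⟩ : GG p) ∈ H.normalCore := by
      rw [hL]
      exact mem_of_top hg3 hiL' hgG
    have h4 := hH _ (H.normalCore_le hgN)
    have h5 := hα ⟨Pi.mulSingle i g, hgG⟩
    rw [h4] at h5
    have h6 := congrFun h5 i
    simp only [Pi.mul_apply, Pi.inv_apply, Pi.mulSingle_eq_same] at h6
    have h7 : g * a i = a i * g := by
      rw [eq_mul_inv_iff_mul_eq] at h6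
      exact h6
    have h8 := congrArg Units.val h7
    rw [Units.val_mul, Units.val_mul, ha i] at h8
    have h9 : (g : Matrix (Ix i ⊕ Fin 2) (Ix i ⊕ Fin 2) (ZMod (p i))) =
        1 + Matrix.single (Sum.inl u) (Sum.inr 0) 1 := rfl
    rw [h9, add_mul, mul_add, one_mul, mul_one] at h8
    have h10 := add_left_cancel h8
    have h11 := congrFun (congrFun h10 (Sum.inl u)) (Sum.inr 1)
    rw [Matrix.single_mul_apply_same, Matrix.mul_single_apply_of_ne] at h11
    · simp [Jd] at h11
    · simp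
  · intro H hi hi3
    have : H.FiniteIndex := ⟨hi⟩
    obtain ⟨L, hLn, hLf, hLi, hL⟩ := cl hcl h2 hg2 hg3 hg4 hp H.normalCore inferInstance
      Subgroup.FiniteIndex.index_ne_zero
    have h6 : H.normalCore.index ≤ 6 := by
      rw [Subgroup.normalCore_eq_ker, Subgroup.index_ker]
      have hfin : Finite (GG p ⧸ H) := Subgroup.finite_quotient_of_finiteIndex
      calc Nat.card (MulAction.toPermHom (GG p) (GG p ⧸ H)).range
          ≤ Nat.card (Equiv.Perm (GG p ⧸ H)) := Subgroup.card_le_card_group _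
        _ = (Nat.card (GG p ⧸ H)).factorial := Nat.card_perm
        _ ≤ (3 : ℕ).factorial := Nat.factorial_le hi3
        _ = 6 := rfl
    have htop : ∀ i, L i = ⊤ := by
      intro i
      by_contra hne
      have h7 := h3 (Ix i) (p i) (L i) (hLn i) hne
      have h8 := hLi i
      have h9 := hp.big i
      omega
    have hN : H.normalCore = ⊤ := by
      rw [eq_top_iff]
      intro g _
      rw [hL]
      intro i
      rw [htop i]; trivial
    rw [eq_top_iff, ← hN]
    exact H.normalCore_le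
  · have := hg1 p
    infer_instance
  · intro H hi
    have : H.FiniteIndex := ⟨hi⟩
    have h1 := hg4 p (H.normalCore.comap (QuotientGroup.mk' (DD p))) inferInstance (by
      rw [Subgroup.index_comap_of_surjective _ (QuotientGroup.mk'_surjective _)]
      exact Subgroup.FiniteIndex.index_ne_zero) (by
      intro g hg
      have h2 : QuotientGroup.mk' (DD p) g = 1 := by
        rw [QuotientGroup.mk'_apply, QuotientGroup.eq_one_iff]
        exact hg
      rw [Subgroup.mem_comap, h2]
      exact Subgroup.one_mem _)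
    rw [eq_top_iff]
    intro z _
    obtain ⟨g, rfl⟩ := QuotientGroup.mk'_surjective _ z
    have h3 : g ∈ H.normalCore.comap (QuotientGroup.mk' (DD p)) := by rw [h1]; trivial
    exact H.normalCore_le h3
  · rw [eq_bot_iff]
    intro z hz
    obtain ⟨g, rfl⟩ := QuotientGroup.mk'_surjective _ z
    rw [Subgroup.mem_center_iff] at hz
    obtain ⟨S, hS, hSf⟩ := (Group.fg_iff (G := GG p)).1 (hg1 p)
    have hc : ∀ h : GG p, {i | (h * g * h⁻¹ * g⁻¹ : GG p).1 i ≠ 1}.Finite := by
      intro h
      have h1 := hz (QuotientGroup.mk' (DD p) h)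
      have h4 : h * g * h⁻¹ * g⁻¹ ∈ DD p := by
        rw [← QuotientGroup.eq_one_iff, ← QuotientGroup.mk'_apply]
        simp only [map_mul, map_inv]
        rw [h1]
        group
      exact h4
    have hB : (⋃ h ∈ S, {i | (h * g * h⁻¹ * g⁻¹ : GG p).1 i ≠ 1}).Finite :=
      hSf.biUnion fun h _ => hc h
    have hgD : g ∈ DD p := by
      refine hB.subset ?_
      intro i hi
      by_contra hiB
      apply hi
      simp only [Set.mem_iUnion, not_exists, Set.mem_ofPred_eq, not_not] at hiB
      -- the subgroup of those h with h i commuting with g i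
      have hcen : ∀ h : GG p, (h : Amb p) i * (g : Amb p) i = (g : Amb p) i * (h : Amb p) i := by
        let e : GG p →* (Matrix (Ix i ⊕ Fin 2) (Ix i ⊕ Fin 2) (ZMod (p i)))ˣ :=
          (Pi.evalMonoidHom _ i).comp (GG p).subtype
        have h5 : Subgroup.closure S ≤ (Subgroup.centralizer {(g : Amb p) i}).comap e := by
          rw [Subgroup.closure_le]
          intro h hh
          have h6 := hiB h hh
          show e h ∈ Subgroup.centralizer {(g : Amb p) i}
          rw [Subgroup.mem_centralizer_iff]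
          intro y hy
          rw [Set.mem_singleton_iff] at hy
          subst hy
          have h7 : (h : Amb p) i * (g : Amb p) i * ((h : Amb p) i)⁻¹ * ((g : Amb p) i)⁻¹ = 1 := h6
          have h8 : (h : Amb p) i * (g : Amb p) i = (g : Amb p) i * (h : Amb p) i := by
            rw [mul_inv_eq_one, mul_inv_eq_iff_eq_mul] at h7
            exact h7
          exact h8.symm
        intro h
        have h9 : h ∈ (Subgroup.centralizer {(g : Amb p) i}).comap e := h5 (by rw [hS]; trivial)
        have h10 : e h ∈ Subgroup.centralizer {(g : Amb p) i} := h9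
        rw [Subgroup.mem_centralizer_iff] at h10
        exact (h10 _ rfl).symm
      have h11 := h2 (Ix i) (p i) (by
        rw [card_Ix]
        have := Nat.one_le_pow i 3 (by norm_num)
        omega) (by rw [card_Ix]; exact cop (hp.mod3 i) i) ⊥ inferInstance
        ⟨(g : Amb p) i, hg3 p g g.2 i⟩ (by
          intro q
          have h12 := hcen ⟨Pi.mulSingle i q.1, hg2 p i q.1 q.2⟩
          have h13 : (Pi.mulSingle i q.1 : Amb p) i = q.1 := Pi.mulSingle_eq_same
            (M := fun i => (Matrix (Ix i ⊕ Fin 2) (Ix i ⊕ Fin 2) (ZMod (p i)))ˣ) i q.1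
          have h14 : q.1 * (g : Amb p) i = (g : Amb p) i * q.1 := by
            have h15 : (Pi.mulSingle i q.1 : Amb p) i * (g : Amb p) i =
              (g : Amb p) i * (Pi.mulSingle i q.1 : Amb p) i := h12
            rwa [h13] at h15
          rw [Subgroup.mem_bot]
          apply Subtype.ext
          show (g : Amb p) i * q.1 * ((g : Amb p) i)⁻¹ * q.1⁻¹ = 1
          rw [← h14]
          group)
      rw [Subgroup.mem_bot] at h11
      exact congrArg Subtype.val h11
    rw [Subgroup.mem_bot, QuotientGroup.mk'_apply, QuotientGroup.eq_one_iff]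
    exact hgD
  · obtain ⟨k, hk, hkk, hk1⟩ := hg6 p (fun i => by have := hp.big i; omega)
    refine ⟨QuotientGroup.mk' (DD p) ⟨k, hk⟩, ?_, ?_⟩
    · intro h
      rw [QuotientGroup.mk'_apply, QuotientGroup.eq_one_iff] at h
      have h1 : {i | k i ≠ 1}.Finite := h
      have h2 : {i | k i ≠ 1} = Set.univ := by
        ext i; simp [hk1 i]
      rw [h2] at h1
      exact Set.infinite_univ h1
    · rw [← map_mul]
      have : (⟨k, hk⟩ * ⟨k, hk⟩ : GG p) = 1 := Subtype.ext hkk
      rw [this, map_one]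

end Pool.Agent.Q175.CG22
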